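import Pool.Agent.Lib.SmH.C.TopAux

/-!
Project HEIGHTS over `F_q(t)` (MP_48b749_nt), block C, module TopQ: 4.1, the top sum of the height forms.
-/

set_option autoImplicit false

open Finset

namespace Pool.Agent.SmH

open Pool.Agent.SmJ

section

variable {G V V1 Pl M I : Type*} [Group G] [AddCommGroup V] [DistribMulAction G V]
  [AddCommGroup V1] [Module (ZMod 2) V1] [AddCommGroup M] [DistribMulAction G M]
  {S : Sys G V V1 Pl} {H : HData V M Pl} [DecidableEq I] [Fintype I]
  {chi0 : G → ZMod 2} {del : I → G → ZMod 2} {pl : I → Bool → Pl}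

omit [Group G] [Fintype I] in
/-- An affine family which is supported in one direction. -/
theorem bC_single (b0 : G → V1) {w : I → V1} {i : I} (hw : ∀ l, l ≠ i → w l = 0)
    (P : Finset I) (s : G) :
    bC b0 w del P s = b0 s + (if i ∈ P then del i s else 0) • w i := by
  unfold bC
  congr 1
  by_cases hi : i ∈ P
  · rw [if_pos hi]
    apply Finset.sum_eq_single i
    · intro l _ hl
      rw [hw l hl, smul_zero]
    · exact fun h => absurd hi h
  · rw [if_neg hi, zero_smul]
    apply Finset.sum_eq_zero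
    intro l hl
    rw [hw l (fun h => hi (h ▸ hl)), smul_zero]

/-- **4.1: the top sum of the height forms.** -/
theorem top_q (hS : S.Ok) (hH : HOk S H) (hC : CubeOk S chi0 del pl) {n : ℕ} (hn : 1 ≤ n)
    (hI : Fintype.card I = n + 2) {ia ib : I} (hab : ia ≠ ib)
    {y : Finset I → (G → V) × (Pl → V)}
    (hy : ∀ P, IsPr S (chiC chi0 del P) (n + 1) (y P))
    (hm : ∀ U P, Disjoint U P → Disjoint U {ia} → U.Nonempty → U.card ≤ n →
      Mn n (fun P s => (2 : ℕ) • (y P).1 s) U P)
    (hbad : ∀ v, v ∉ S.good → ∀ P, (2 : ℕ) • (y P).2 v = (2 : ℕ) • (y ∅).2 v)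
    {z0 : G → V1} {zv : I → V1} (hzv : ∀ i, i ≠ ia → zv i = 0)
    (hz : ∀ P s, (2 : ℕ) ^ n • (y P).1 s = S.iota (bC z0 zv del P s))
    {w0 : G → V1} {wv : I → V1} (hwv : ∀ i, i ≠ ib → wv i = 0) (hw : S.HomG w0)
    (hwl : ∀ P, ∀ v ∈ S.good, S.loc v (bC w0 wv del P) -
      (0, (H.deg v : ZMod 2) • bC z0 zv del P (S.sg v)) ∈ S.Wl (chiC chi0 del P) v)
    {Th : G → V1} (htf : S.TF Th)
    (hrel : ThRel S n del (fun P s => (2 : ℕ) • (y P).1 s) (univ.erase ib) Th)
    (hunr : ∀ v, v ≠ S.inf → Th (S.sg v) = 0) :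
    alt univ (fun P => q S H (chiC chi0 del P) (n + 1) (y P)) ∅ =
      H.j (S.e (Th (S.phi (pl ib false)) + Th (S.phi (pl ib true))) (wv ib)) := by
  have hchi : ∀ P, S.HomG (chiC chi0 del P) := chiC_hom hS hC.chi0_hom hC.del_hom
  choose rho hrho using fun P => exists_rho hS hH (hchi P) (hy P).sel
  have hfam : TopFam chi0 del n ia (fun P => (y P).1) :=
    ⟨hn, hI, fun P => (hy P).sel.coc, fun P => (hy P).sel.lev, hm⟩
  have hloc : TopFam.LocH S chi0 del pl n ia ib (fun P => (y P).1)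
      (fun v => (H.deg v : ZMod 2)) z0 (zv ia) w0 (wv ib) := by
    refine ⟨hS, hC, hab, hfam, fun P v => (hy P).sel.loc v, ?_, ?_, hw, ?_⟩
    · intro v hv
      exact ⟨fun P => (y P).2 v, fun P s hs => (hy P).loc v hv s hs, fun P => hbad v hv P⟩
    · intro P s
      rw [hz P s, bC_single z0 hzv]
    · intro P v hv
      have h1 := hwl P v hv
      rw [bC_single z0 hzv] at h1
      have h2 : S.loc v (bC w0 wv del P) =
          S.loc v (fun s => w0 s + (if ib ∈ P then del ib s else 0) • wv ib) :=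
        Prod.ext (bC_single w0 hwv P _) (bC_single w0 hwv P _)
      rwa [h2] at h1
  rw [alt_q hS hH hC (by omega) ⟨ia, Finset.mem_univ ia⟩ hy hbad hrho,
    TopFam.LocH.top_rho hH hloc (fun P => (hy P).sel.tf) hrho htf hrel hunr]

end

end Pool.Agent.SmH
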