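import Pool.Agent.Lib.SmH.C.LeibE
import Pool.Agent.Lib.SmJ.H.Min

/-!
Project HEIGHTS over `F_q(t)` (MP_48b749_nt), block C, module Exact: 4.1 (a), the exact formula for the
alternating sum over the cube of the cup squares of the lifts of a minimal family.

`y P`, `P : Finset I`, `|I| = n + 2`, is a family of cocycles of level `n + 1` such that `2 y` satisfies
(m1) for all faces without the direction `ia`. `Om = A_univ y`, `A_(univ \ ia) y` at `∅` and at `{ia}`
are homomorphisms to `V1`, and the alternating sum of `e (y s, s * y t)` is the coboundary of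
`e (Om, z0) + del ia e (a, Om'')`.
-/

set_option autoImplicit false

open Finset

namespace Pool.Agent.SmH

open Pool.Agent.SmJ

section

variable {G V V1 Pl M I : Type*} [Group G] [AddCommGroup V] [DistribMulAction G V]
  [AddCommGroup V1] [Module (ZMod 2) V1] [AddCommGroup M]
  [DistribMulAction G M] {S : Sys G V V1 Pl} {e : ℕ → V → V → M} {j : ZMod 2 →+ M}

/-- The pairing with an element of `V[2]` on the left. -/
theorem e_iota_left (hS : S.Ok) (hw : Weil S e j) {n : ℕ} (w : V1) {x : V}
    (hx : (2 : ℕ) ^ (n + 1) • x = 0) :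
    e (n + 1) (S.iota w) x = j (S.e w (S.un ((2 : ℕ) ^ n • x))) := by
  have h1 : (2 : ℕ) • S.iota w = 0 := by
    rw [← map_nsmul, two_nsmul, ZModModule.add_self, map_zero]
  have h2 : (2 : ℕ) • ((2 : ℕ) ^ n • x) = 0 := by rw [smul_smul, ← pow_succ', hx]
  have h3 := hw.comp_pow (m := 1) n (x := S.iota w) (y := x) (by rwa [pow_one])
    (by rw [add_comm]; exact hx)
  rw [add_comm 1 n] at h3
  rw [h3]
  conv_lhs => rw [← Sys.iota_un hS h2]
  exact hw.one _ _

/-- The pairing with an element of `V[2]` on the right. -/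
theorem e_iota_right (hS : S.Ok) (hw : Weil S e j) {n : ℕ} (w : V1) {x : V}
    (hx : (2 : ℕ) ^ (n + 1) • x = 0) :
    e (n + 1) x (S.iota w) = j (S.e (S.un ((2 : ℕ) ^ n • x)) w) := by
  have h1 : (2 : ℕ) • S.iota w = 0 := by
    rw [← map_nsmul, two_nsmul, ZModModule.add_self, map_zero]
  have h2 : (2 : ℕ) • ((2 : ℕ) ^ n • x) = 0 := by rw [smul_smul, ← pow_succ', hx]
  rw [hw.red hx h1]
  conv_lhs => rw [← Sys.iota_un hS h2]
  exact hw.one _ _

variable [DecidableEq I] [Fintype I]

/-- The hypotheses on the family of the lifts. -/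
structure TopFam (chi0 : G → ZMod 2) (del : I → G → ZMod 2) (n : ℕ) (ia : I)
    (y : Finset I → G → V) : Prop where
  one_le : 1 ≤ n
  card : Fintype.card I = n + 2
  coc : ∀ P s t, y P (s * t) = y P s + tw (chiC chi0 del P) s (y P t)
  lev : ∀ P s, (2 : ℕ) ^ (n + 1) • y P s = 0
  mn : ∀ U P, Disjoint U P → Disjoint U {ia} → U.Nonempty → U.card ≤ n →
    Mn n (fun P s => (2 : ℕ) • y P s) U P

variable {chi0 : G → ZMod 2} {del : I → G → ZMod 2} {n : ℕ} {ia : I} {y : Finset I → G → V}

namespace TopFam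

theorem lev2 (h : TopFam chi0 del n ia y) (P : Finset I) (s : G) :
    (2 : ℕ) ^ n • ((2 : ℕ) • y P s) = 0 := by
  rw [smul_smul, ← pow_succ, h.lev]

/-- Exponents of the faces without `ia`. -/
theorem x1 (h : TopFam chi0 del n ia y) {U P : Finset I} (hUP : Disjoint U P) (hi : ia ∉ U)
    {b : ℕ} (hb : 1 ≤ b) (hc : n + 1 ≤ U.card + b) (s : G) :
    (2 : ℕ) ^ b • alt U (fun T => y T s) P = 0 := by
  obtain ⟨b, rfl⟩ : ∃ c, b = c + 1 := ⟨b - 1, by omega⟩
  have h1 := mn_pow (W := univ) (σ := {ia}) (j := n) (Psi := fun P s => (2 : ℕ) • y P s)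
    (fun P _ s => h.lev2 P s) (fun U P _ _ h1 h2 h3 h4 => h.mn U P h1 h2 h3 h4)
    (Finset.subset_univ U) (Finset.subset_univ P) hUP
    (Finset.disjoint_singleton_right.2 hi) (a := b) (by omega) s
  rw [← h1, ← alt_nsmul]
  apply alt_congr
  intro T _
  rw [smul_smul, ← pow_succ]

/-- Exponents of all faces. -/
theorem x2 (h : TopFam chi0 del n ia y) {U P : Finset I} (hUP : Disjoint U P)
    {b : ℕ} (hb : 1 ≤ b) (hc : n + 2 ≤ U.card + b) (s : G) :
    (2 : ℕ) ^ b • alt U (fun T => y T s) P = 0 := by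
  obtain ⟨b, rfl⟩ : ∃ c, b = c + 1 := ⟨b - 1, by omega⟩
  have h0 := star_of_min (W := univ) (σ := {ia}) (j := n) (Psi := fun P s => (2 : ℕ) • y P s)
    (by simp) (fun P _ s => h.lev2 P s) (fun U P _ _ h1 h2 h3 h4 => h.mn U P h1 h2 h3 h4)
  have h1 := h0 U P (Finset.subset_univ U) (Finset.subset_univ P) hUP b (by omega) s
  rw [← h1, ← alt_nsmul]
  apply alt_congr
  intro T _
  rw [smul_smul, ← pow_succ]

/-- The exponent of a face. -/
def ex (n : ℕ) (ia : I) (W : Finset I) : ℕ :=
  if ia ∈ W then max (n + 2 - W.card) 1 else max (n + 1 - W.card) 1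

theorem pow_ex (h : TopFam chi0 del n ia y) {W P : Finset I} (hWP : Disjoint W P) (s : G) :
    (2 : ℕ) ^ ex n ia W • alt W (fun T => y T s) P = 0 := by
  unfold ex
  split_ifs with hi
  · exact h.x2 hWP (le_max_right _ _) (by omega) s
  · exact h.x1 hWP hi (le_max_right _ _) (by omega) s

/-- The alternating sums which have values in `V[2]`. -/
theorem two_top (h : TopFam chi0 del n ia y) (s : G) :
    (2 : ℕ) • alt univ (fun T => y T s) ∅ = 0 := by
  have := h.x2 (U := univ) (P := ∅) (Finset.disjoint_empty_right _) (b := 1) le_rfl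
    (by rw [Finset.card_univ, h.card]; omega) s
  rwa [pow_one] at this

theorem two_side (h : TopFam chi0 del n ia y) {P : Finset I} (hP : P ⊆ {ia}) (s : G) :
    (2 : ℕ) • alt (univ.erase ia) (fun T => y T s) P = 0 := by
  have hd : Disjoint (univ.erase ia) P := by
    rw [Finset.disjoint_left]
    intro x hx hxP
    exact (Finset.mem_erase.1 hx).1 (Finset.mem_singleton.1 (hP hxP))
  have := h.x1 (U := univ.erase ia) hd (Finset.notMem_erase ia _) (b := 1) le_rfl
    (by rw [Finset.card_erase_of_mem (Finset.mem_univ ia), Finset.card_univ, h.card]; omega) s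
  rwa [pow_one] at this

theorem two_zn (h : TopFam chi0 del n ia y) (P : Finset I) (s : G) :
    (2 : ℕ) • ((2 : ℕ) ^ n • y P s) = 0 := by
  rw [smul_smul, ← pow_succ', h.lev]

/-- The homomorphisms. -/
noncomputable def Om (S : Sys G V V1 Pl) (y : Finset I → G → V) (U P : Finset I) (s : G) : V1 :=
  S.un (alt U (fun T => y T s) P)

theorem om_mul_aux (hS : S.Ok) (h : TopFam chi0 del n ia y) {U P : Finset I}
    (hUP : Disjoint U P) (h2 : ∀ s, (2 : ℕ) • alt U (fun T => y T s) P = 0)
    (h3 : ∀ T, T ⊆ U → T.Nonempty → ∀ t,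
      (2 : ℕ) ^ T.card • alt (U \ T) (fun Q => y Q t) (P ∪ T) = 0) (s t : G) :
    Om S y U P (s * t) = Om S y U P s + Om S y U P t := by
  apply hS.iota_inj
  change S.iota (S.un _) = S.iota (S.un _ + S.un _)
  rw [map_add, Sys.iota_un hS (h2 _), Sys.iota_un hS (h2 _), Sys.iota_un hS (h2 _),
    alt_cocycle chi0 del y s t U P hUP (fun T _ => h.coc _ s t)]
  congr 1
  rw [← Finset.add_sum_erase U.powerset _ (Finset.empty_mem_powerset U)]
  have h4 : ∑ T ∈ U.powerset.erase ∅, (2 ^ T.card * (pdel del T s).val) •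
      alt (U \ T) (fun Q => y Q t) (P ∪ T) = 0 := by
    apply Finset.sum_eq_zero
    intro T hT
    obtain ⟨hT0, hT1⟩ := Finset.mem_erase.1 hT
    rw [mul_comm, mul_smul, h3 T (Finset.mem_powerset.1 hT1)
      (Finset.nonempty_iff_ne_empty.2 hT0), smul_zero]
  rw [h4, add_zero]
  have hv : (1 : ZMod 2).val = 1 := rfl
  simp only [Finset.card_empty, pow_zero, pdel_empty, hv, mul_one, one_smul, Finset.sdiff_empty,
    Finset.union_empty]
  exact Sys.tw_of_two hS _ _ (h2 t)

theorem om_top_mul (hS : S.Ok) (h : TopFam chi0 del n ia y) (s t : G) :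
    Om S y univ ∅ (s * t) = Om S y univ ∅ s + Om S y univ ∅ t := by
  refine om_mul_aux hS h (Finset.disjoint_empty_right _) h.two_top ?_ s t
  intro T _ hT0 t
  have h1 : (univ \ T : Finset I).card = n + 2 - T.card := by
    rw [Finset.card_sdiff_of_subset (Finset.subset_univ T), Finset.card_univ, h.card]
  exact h.x2 (by rw [Finset.empty_union]; exact Finset.sdiff_disjoint)
    (Finset.card_pos.2 hT0) (by omega) t

theorem om_side_mul (hS : S.Ok) (h : TopFam chi0 del n ia y) {P : Finset I} (hP : P ⊆ {ia})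
    (s t : G) : Om S y (univ.erase ia) P (s * t) =
      Om S y (univ.erase ia) P s + Om S y (univ.erase ia) P t := by
  have hd : Disjoint (univ.erase ia) P := by
    rw [Finset.disjoint_left]
    intro x hx hxP
    exact (Finset.mem_erase.1 hx).1 (Finset.mem_singleton.1 (hP hxP))
  refine om_mul_aux hS h hd (h.two_side hP) ?_ s t
  intro T hT hT0 t
  have h0 : (univ.erase ia : Finset I).card = n + 1 := by
    rw [Finset.card_erase_of_mem (Finset.mem_univ ia), Finset.card_univ, h.card]; omega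
  have h1 : ((univ.erase ia) \ T : Finset I).card = n + 1 - T.card := by
    rw [Finset.card_sdiff_of_subset hT, h0]
  refine h.x1 ?_ (fun hc => Finset.notMem_erase ia _ (Finset.mem_sdiff.1 hc).1)
    (Finset.card_pos.2 hT0) (by omega) t
  rw [Finset.disjoint_union_right]
  exact ⟨hd.mono_left Finset.sdiff_subset, Finset.sdiff_disjoint⟩

/-- The vanishing terms. -/
theorem term_zero (hw : Weil S e j) (h : TopFam chi0 del n ia y) {W T : Finset I}
    (hT : T ⊆ univ \ W)
    (hne : T = ∅ → W ≠ ∅ ∧ W ≠ {ia} ∧ W ≠ univ.erase ia ∧ W ≠ univ) (chi : G → ZMod 2) (s t : G) :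
    e (n + 1) (alt W (fun Q => y Q s) (∅ ∪ (univ \ W)))
      (tw chi s ((2 : ℕ) ^ T.card • alt ((univ \ W) \ T) (fun Q => y Q t) (∅ ∪ T))) = 0 := by
  set W' : Finset I := (univ \ W) \ T with hW'
  have hc : W.card + T.card + W'.card = n + 2 := by
    have h1 := Finset.card_sdiff_of_subset hT
    have h2 := Finset.card_sdiff_of_subset (Finset.subset_univ W)
    have h3 := Finset.card_le_card hT
    have h4 := Finset.card_le_card (Finset.subset_univ W)
    rw [Finset.card_univ, h.card] at h2 h4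
    rw [← hW'] at h1
    omega
  have e1 := h.pow_ex (W := W) (P := ∅ ∪ (univ \ W)) (by
    rw [Finset.empty_union]; exact Finset.disjoint_sdiff) s
  have e2 := h.pow_ex (W := W') (P := ∅ ∪ T) (by
    rw [Finset.empty_union]; exact Finset.sdiff_disjoint) t
  have e3 : (2 : ℕ) ^ (ex n ia W' - T.card) • ((2 : ℕ) ^ T.card •
      alt W' (fun Q => y Q t) (∅ ∪ T)) = 0 := by
    rw [pow_smul_smul]
    exact lev_le (by omega) e2
  refine hw.small ?_ e1 (pow_smul_tw chi s e3)
  -- the exponents
  have hmem : ia ∈ W ∨ ia ∈ T ∨ ia ∈ W' := by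
    by_cases h1 : ia ∈ W
    · exact Or.inl h1
    · by_cases h2 : ia ∈ T
      · exact Or.inr (Or.inl h2)
      · refine Or.inr (Or.inr ?_)
        rw [hW', Finset.mem_sdiff, Finset.mem_sdiff]
        exact ⟨⟨Finset.mem_univ _, h1⟩, h2⟩
  have hWT : ∀ x, x ∈ T → x ∉ W := fun x hx => (Finset.mem_sdiff.1 (hT hx)).2
  have hWW' : ∀ x, x ∈ W' → x ∉ W := fun x hx =>
    (Finset.mem_sdiff.1 (Finset.mem_sdiff.1 hx).1).2
  have hTW' : ∀ x, x ∈ W' → x ∉ T := fun x hx => (Finset.mem_sdiff.1 hx).2
  have hT0 : T.card = 0 → W ≠ ∅ ∧ W ≠ {ia} ∧ W ≠ univ.erase ia ∧ W ≠ univ :=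
    fun hc0 => hne (Finset.card_eq_zero.1 hc0)
  have hun : W.card = n + 2 → W = univ := fun hc0 => by
    apply Finset.eq_univ_of_card
    rw [hc0, h.card]
  unfold ex
  rcases hmem with h1 | h1 | h1
  · have h2 : ia ∉ W' := fun hx => hWW' _ hx h1
    rw [if_pos h1, if_neg h2]
    have h3 : 1 ≤ W.card := Finset.card_pos.2 ⟨ia, h1⟩
    have h4 : W.card ≠ n + 2 := fun hc0 => by
      have h5 : T.card = 0 := by omega
      exact (hT0 h5).2.2.2 (hun hc0)
    have h5 : ¬ (W.card = 1 ∧ T.card = 0) := fun hc0 => by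
      obtain ⟨x, hx⟩ := Finset.card_eq_one.1 hc0.1
      rw [hx, Finset.mem_singleton] at h1
      exact (hT0 hc0.2).2.1 (by rw [hx, h1])
    omega
  · have h2 : ia ∉ W' := fun hx => hTW' _ hx h1
    have h3 : ia ∉ W := hWT _ h1
    rw [if_neg h3, if_neg h2]
    have h4 : 1 ≤ T.card := Finset.card_pos.2 ⟨ia, h1⟩
    omega
  · have h2 : ia ∉ W := hWW' _ h1
    rw [if_neg h2, if_pos h1]
    have h3 : 1 ≤ W'.card := Finset.card_pos.2 ⟨ia, h1⟩
    have h4 : ¬ (W.card = 0 ∧ T.card = 0) := fun hc0 =>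
      (hT0 hc0.2).1 (Finset.card_eq_zero.1 hc0.1)
    have h5 : ¬ (W.card = n + 1 ∧ T.card = 0) := fun hc0 => by
      refine (hT0 hc0.2).2.2.1 ?_
      apply Finset.eq_of_subset_of_card_le
      · intro x hx
        exact Finset.mem_erase.2 ⟨fun hxa => h2 (hxa ▸ hx), Finset.mem_univ x⟩
      · rw [Finset.card_erase_of_mem (Finset.mem_univ ia), Finset.card_univ, h.card]
        have := hc0.1
        omega
    omega

/-- The four exceptional terms. -/
theorem four (hw : Weil S e j) (h : TopFam chi0 del n ia y) (s t : G) :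
    alt univ (fun Q => e (n + 1) (y Q s) (tw (chiC chi0 del Q) s (y Q t))) ∅ =
      e (n + 1) (y univ s) (tw chi0 s (alt univ (fun Q => y Q t) ∅)) +
      e (n + 1) (alt {ia} (fun Q => y Q s) (univ.erase ia))
        (tw chi0 s (alt (univ.erase ia) (fun Q => y Q t) ∅)) +
      e (n + 1) (alt (univ.erase ia) (fun Q => y Q s) {ia})
        (tw chi0 s (alt {ia} (fun Q => y Q t) ∅)) +
      e (n + 1) (alt univ (fun Q => y Q s) ∅) (tw chi0 s (y ∅ t)) := by
  rw [alt_cupE hw chi0 del s (fun Q => y Q s) (fun Q => y Q t) univ ∅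
    (Finset.disjoint_empty_right _) (fun T _ => h.lev _ s) (fun T _ => h.lev _ t)]
  have hin : ∀ W ∈ (univ : Finset I).powerset, ∑ T ∈ (univ \ W).powerset, (pdel del T s).val •
        e (n + 1) (alt W (fun Q => y Q s) (∅ ∪ (univ \ W)))
          (tw (chiC chi0 del ∅) s ((2 : ℕ) ^ T.card •
            alt ((univ \ W) \ T) (fun Q => y Q t) (∅ ∪ T))) =
      e (n + 1) (alt W (fun Q => y Q s) (univ \ W))
          (tw chi0 s (alt (univ \ W) (fun Q => y Q t) ∅)) := by
    intro W _
    rw [Finset.sum_eq_single ∅]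
    · have hv : (1 : ZMod 2).val = 1 := rfl
      simp [pdel_empty, hv, chiC_empty]
    · intro T hT hT0
      rw [h.term_zero hw (Finset.mem_powerset.1 hT) (fun h0 => absurd h0 hT0), smul_zero]
    · intro hn
      exact absurd (Finset.empty_mem_powerset _) hn
  rw [Finset.sum_congr rfl hin]
  have hia : ia ∉ (univ.erase ia : Finset I) := Finset.notMem_erase ia _
  have hce : (univ.erase ia : Finset I).card = n + 1 := by
    rw [Finset.card_erase_of_mem (Finset.mem_univ ia), Finset.card_univ, h.card]; omega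
  have hn1 := h.one_le
  have d1 : (univ : Finset I) ≠ ∅ := fun hc => by
    have := congrArg Finset.card hc
    rw [Finset.card_univ, h.card, Finset.card_empty] at this
    omega
  have d2 : (univ.erase ia : Finset I) ≠ ∅ := fun hc => by
    have := congrArg Finset.card hc
    rw [hce, Finset.card_empty] at this
    omega
  have d3 : (univ.erase ia : Finset I) ≠ univ := fun hc => by
    rw [hc] at hia
    exact hia (Finset.mem_univ _)
  have d4 : (univ.erase ia : Finset I) ≠ {ia} := fun hc => by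
    rw [hc] at hia
    exact hia (Finset.mem_singleton_self _)
  have d5 : (univ : Finset I) ≠ {ia} := fun hc => by
    have := congrArg Finset.card hc
    rw [Finset.card_univ, h.card, Finset.card_singleton] at this
    omega
  have d6 : ({ia} : Finset I) ≠ ∅ := Finset.singleton_ne_empty ia
  have hsub : ({∅, {ia}, univ.erase ia, univ} : Finset (Finset I)) ⊆
      (univ : Finset I).powerset := by
    intro W _
    exact Finset.mem_powerset.2 (Finset.subset_univ W)
  rw [← Finset.sum_subset hsub]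
  · rw [Finset.sum_insert, Finset.sum_insert, Finset.sum_insert, Finset.sum_singleton]
    · have u1 : (univ : Finset I) \ {ia} = univ.erase ia := by rw [Finset.erase_eq]
      have u2 : (univ : Finset I) \ univ.erase ia = {ia} := by
        rw [← u1, Finset.sdiff_sdiff_eq_self (Finset.subset_univ _)]
      simp only [Finset.sdiff_empty, alt_empty, u1, u2, Finset.sdiff_self]
      abel
    · rw [Finset.mem_singleton]; exact d3
    · rw [Finset.mem_insert, Finset.mem_singleton]
      exact fun hc => hc.elim (fun h1 => d4 h1.symm) (fun h1 => d5 h1.symm)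
    · rw [Finset.mem_insert, Finset.mem_insert, Finset.mem_singleton]
      exact fun hc => hc.elim (fun h1 => d6 h1.symm)
        (fun hc => hc.elim (fun h1 => d2 h1.symm) (fun h1 => d1 h1.symm))
  · intro W _ hW
    simp only [Finset.mem_insert, Finset.mem_singleton, not_or] at hW
    have := h.term_zero hw (W := W) (T := ∅) (Finset.empty_subset _)
      (fun _ => ⟨hW.1, hW.2.1, hW.2.2.1, hW.2.2.2⟩) chi0 s t
    simpa using this

end TopFam

end

end Pool.Agent.SmH
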