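import Pool.Agent.Lib.SmH.C.Exact

/-!
Project HEIGHTS over `F_q(t)` (MP_48b749_nt), block C, module ExactF: 4.1 (a), the exact formula.
-/

set_option autoImplicit false

open Finset

namespace Pool.Agent.SmH

open Pool.Agent.SmJ

section

variable {G V V1 Pl M I : Type*} [Group G] [AddCommGroup V] [DistribMulAction G V]
  [AddCommGroup V1] [Module (ZMod 2) V1] [AddCommGroup M]
  [DistribMulAction G M] {S : Sys G V V1 Pl} {e : ℕ → V → V → M} {j : ZMod 2 →+ M}
  [DecidableEq I] [Fintype I]
  {chi0 : G → ZMod 2} {del : I → G → ZMod 2} {n : ℕ} {ia : I} {y : Finset I → G → V}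

theorem e_symm (hS : S.Ok) (x y : V1) : S.e x y = S.e y x := by
  have h := hS.e_alt (x + y)
  simp only [map_add, LinearMap.add_apply, hS.e_alt, zero_add, add_zero] at h
  exact (CharTwo.add_eq_zero.1 h).symm

/-- The primitive of the alternating sum of the cup squares. -/
noncomputable def FF (S : Sys G V V1 Pl) (y : Finset I → G → V) (del : I → G → ZMod 2) (ia : I)
    (z0 : G → V1) (a : V1) (s : G) : ZMod 2 :=
  S.e (TopFam.Om S y univ ∅ s) (z0 s) + del ia s * S.e a (TopFam.Om S y (univ.erase ia) {ia} s)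

namespace TopFam

/-- The top part of the family. -/
def TopZ (S : Sys G V V1 Pl) (del : I → G → ZMod 2) (n : ℕ) (ia : I)
    (y : Finset I → G → V) (z0 : G → V1) (a : V1) : Prop :=
  ∀ P s, (2 : ℕ) ^ n • y P s = S.iota (z0 s + (if ia ∈ P then del ia s else 0) • a)

omit [Fintype I] in
theorem iota_om (hS : S.Ok) {U P : Finset I} {s : G}
    (h2 : (2 : ℕ) • alt U (fun T => y T s) P = 0) :
    S.iota (Om S y U P s) = alt U (fun T => y T s) P := Sys.iota_un hS h2

theorem om_split (hS : S.Ok) (h : TopFam chi0 del n ia y) (s : G) :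
    Om S y univ ∅ s = Om S y (univ.erase ia) ∅ s + Om S y (univ.erase ia) {ia} s := by
  apply hS.iota_inj
  rw [map_add, iota_om hS (h.two_top s), iota_om hS (h.two_side (Finset.empty_subset _) s),
    iota_om hS (h.two_side (Finset.Subset.refl _) s), alt_of_mem (Finset.mem_univ ia),
    sub_eq_add_neg, Sys.neg_of_two (h.two_side (by simp) s)]
  rfl

theorem z0_mul (hS : S.Ok) (h : TopFam chi0 del n ia y) {z0 : G → V1} {a : V1}
    (hz : TopZ S del n ia y z0 a) (s t : G) : z0 (s * t) = z0 s + z0 t := by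
  have h0 : ∀ s, S.iota (z0 s) = (2 : ℕ) ^ n • y ∅ s := fun s => by
    rw [hz ∅ s, if_neg (Finset.notMem_empty ia), zero_smul, add_zero]
  apply hS.iota_inj
  rw [map_add, h0, h0, h0, h.coc, smul_add, ← tw_nsmul,
    Sys.tw_of_two hS _ _ (h.two_zn ∅ t)]

omit [Fintype I] in
theorem alt_ia_zn {z0 : G → V1} {a : V1}
    (hz : TopZ S del n ia y z0 a) {P : Finset I} (hP : ia ∉ P) (s : G) :
    (2 : ℕ) ^ n • alt {ia} (fun Q => y Q s) P = S.iota (del ia s • a) := by
  rw [alt_singleton, smul_sub, hz P s, hz (insert ia P) s, if_neg hP,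
    if_pos (Finset.mem_insert_self ia P), zero_smul, add_zero, map_add, sub_add_cancel_left]
  exact Sys.neg_of_two (by rw [← map_nsmul, two_nsmul, ZModModule.add_self, map_zero])

/-- 4.1 (a): the exact formula. -/
theorem exact (hS : S.Ok) (hw : Weil S e j) (h : TopFam chi0 del n ia y)
    (hdel : ∀ s t, del ia (s * t) = del ia s + del ia t) {z0 : G → V1} {a : V1}
    (hz : TopZ S del n ia y z0 a) (s t : G) :
    alt univ (fun Q => e (n + 1) (y Q s) (tw (chiC chi0 del Q) s (y Q t))) ∅ =
      j (FF S y del ia z0 a s) + j (FF S y del ia z0 a t) - j (FF S y del ia z0 a (s * t)) := by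
  rw [h.four hw s t]
  have hia : ia ∉ (univ.erase ia : Finset I) := Finset.notMem_erase ia _
  -- term 1
  have t1 : e (n + 1) (y univ s) (tw chi0 s (alt univ (fun Q => y Q t) ∅)) =
      j (S.e (z0 s + del ia s • a) (Om S y univ ∅ t)) := by
    rw [Sys.tw_of_two hS _ _ (h.two_top t), ← iota_om hS (h.two_top t),
      e_iota_right hS hw _ (h.lev univ s), hz univ s, if_pos (Finset.mem_univ ia),
      Sys.un_iota hS]
  have hl : ∀ {P : Finset I} (s : G), (2 : ℕ) ^ (n + 1) • alt {ia} (fun Q => y Q s) P = 0 :=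
    fun {P} s => pow_alt fun T _ => h.lev _ s
  -- term 2
  have t2 : e (n + 1) (alt {ia} (fun Q => y Q s) (univ.erase ia))
        (tw chi0 s (alt (univ.erase ia) (fun Q => y Q t) ∅)) =
      j (S.e (del ia s • a) (Om S y (univ.erase ia) ∅ t)) := by
    rw [Sys.tw_of_two hS _ _ (h.two_side (Finset.empty_subset _) t),
      ← iota_om hS (h.two_side (Finset.empty_subset _) t), e_iota_right hS hw _ (hl s),
      alt_ia_zn hz hia s, Sys.un_iota hS]
  -- term 3
  have t3 : e (n + 1) (alt (univ.erase ia) (fun Q => y Q s) {ia})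
        (tw chi0 s (alt {ia} (fun Q => y Q t) ∅)) =
      j (S.e (Om S y (univ.erase ia) {ia} s) (del ia t • a)) := by
    have h2 : (2 : ℕ) • S.iota (del ia t • a) = 0 := by
      rw [← map_nsmul, two_nsmul, ZModModule.add_self, map_zero]
    rw [← iota_om hS (h.two_side (Finset.Subset.refl _) s),
      e_iota_left hS hw _ (pow_smul_tw _ s (hl t)), ← tw_nsmul,
      alt_ia_zn hz (Finset.notMem_empty ia) t, Sys.tw_of_two hS _ _ h2, Sys.un_iota hS]
  -- term 4
  have t4 : e (n + 1) (alt univ (fun Q => y Q s) ∅) (tw chi0 s (y ∅ t)) =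
      j (S.e (Om S y univ ∅ s) (z0 t)) := by
    rw [← iota_om hS (h.two_top s), e_iota_left hS hw _ (pow_smul_tw _ s (h.lev ∅ t)), ← tw_nsmul,
      Sys.tw_of_two hS _ _ (h.two_zn ∅ t), hz ∅ t, if_neg (Finset.notMem_empty ia), zero_smul,
      add_zero, Sys.un_iota hS]
  rw [t1, t2, t3, t4, ← map_add, ← map_add, ← map_add, ← map_add, ← map_sub]
  congr 1
  unfold FF
  rw [h.om_top_mul hS s t, h.om_side_mul hS (Finset.Subset.refl _) s t, z0_mul hS h hz s t,
    hdel s t, om_split hS h t, om_split hS h s]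
  generalize Om S y (univ.erase ia) ∅ s = A
  generalize Om S y (univ.erase ia) ∅ t = B
  generalize Om S y (univ.erase ia) {ia} s = C
  generalize Om S y (univ.erase ia) {ia} t = D
  simp only [map_add, LinearMap.add_apply, map_smul, LinearMap.smul_apply, smul_eq_mul]
  rw [e_symm hS C a, e_symm hS (z0 s) B, e_symm hS (z0 s) D]
  have h2 : (2 : ZMod 2) = 0 := rfl
  linear_combination (S.e B (z0 s) + S.e D (z0 s) + del ia s * (S.e a) B + del ia s * (S.e a) D +
    S.e A (z0 t) + S.e C (z0 t) + del ia t * (S.e a) C) * h2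

end TopFam

end

end Pool.Agent.SmH
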