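import Pool.Agent.Lib.SmH.C.ExactF
import Pool.Agent.Lib.SmJ.H.Sum

/-!
Project HEIGHTS over `F_q(t)` (MP_48b749_nt), block C, module LocT: 4.1 (b), (c), the local terms.

`loc_id`: for every place `v`
`deg v * F (sg v) + <Om, w1>_v + <Th0 - Th, del ib b>_v` is `e (Th (phi v), b)` at the two places
`p_ib^0`, `p_ib^1` and `0` at all others.
-/

set_option autoImplicit false

open Finset

namespace Pool.Agent.SmH

open Pool.Agent.SmJ

section

variable {G V V1 Pl I : Type*} [Group G] [AddCommGroup V] [DistribMulAction G V]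
  [AddCommGroup V1] [Module (ZMod 2) V1] {S : Sys G V V1 Pl}
  [DecidableEq I] [Fintype I]
  {chi0 : G → ZMod 2} {del : I → G → ZMod 2} {n : ℕ} {ia ib : I} {y : Finset I → G → V}
  {pl : I → Bool → Pl}

omit [Fintype I] in
/-- The twist of the vertex `P` at the tame generator of `p_i^e`. -/
theorem chiC_pl (hC : CubeOk S chi0 del pl) (P : Finset I) (i : I) (e : Bool) (hS : S.Ok) :
    chiC chi0 del P (S.sg (pl i e)) = (if e then 0 else 1) + (if i ∈ P then 1 else 0) := by
  unfold chiC
  rw [hC.chi0_sg]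
  congr 1
  by_cases hi : i ∈ P
  · rw [if_pos hi, Finset.sum_eq_single i]
    · exact hC.del_sg i e
    · intro l _ hl
      exact hC.del_D i e l hl _ (hS.sg_mem _)
    · exact fun h => absurd hi h
  · rw [if_neg hi]
    apply Finset.sum_eq_zero
    intro l hl
    exact hC.del_D i e l (fun h => hi (h ▸ hl)) _ (hS.sg_mem _)

namespace TopFam

omit [Fintype I] in
/-- `Om` vanishes at an element where all vertices of the face vanish. -/
theorem om_zero (hS : S.Ok) {U P : Finset I} {s : G} (h0 : ∀ T, T ⊆ U → y (P ∪ T) s = 0) :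
    Om S y U P s = 0 := by
  unfold Om
  have : alt U (fun T => y T s) P = alt U (fun _ => (0 : V)) P := alt_congr h0
  rw [this, alt_zero, Sys.un_zero hS]

omit [Fintype I] in
/-- `Om` vanishes at an element where all vertices of the face have the same value. -/
theorem om_const (hS : S.Ok) {U P : Finset I} (hU : U.Nonempty) {s : G} {c : V}
    (h0 : ∀ T, T ⊆ U → y (P ∪ T) s = c) : Om S y U P s = 0 := by
  unfold Om
  have : alt U (fun T => y T s) P = alt U (fun _ => c) P := alt_congr h0
  rw [this, alt_const hU, Sys.un_zero hS]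

omit [Fintype I] in
/-- On `D v`, `v` with constant twists, the alternating sum is a coboundary. -/
theorem alt_dl_on {U P X : Finset I} {v : Pl} {Q : Finset I → V}
    (hQ : ∀ T, T ⊆ U → ∀ s ∈ S.D v, y (P ∪ T) s = dl (chiC chi0 del (P ∪ T)) (Q (P ∪ T)) s)
    (hdel : ∀ l ∈ U, ∀ s ∈ S.D v, del l s = 0) (hX1 : P ⊆ X) (hX2 : X ⊆ P ∪ U) {s : G}
    (hs : s ∈ S.D v) :
    alt U (fun T => y T s) P = dl (chiC chi0 del X) (alt U Q P) s := by
  have h0 : ∀ Y, P ⊆ Y → Y ⊆ P ∪ U → chiC chi0 del Y s = chiC chi0 del P s := by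
    intro Y hY1 hY2
    unfold chiC
    congr 1
    symm
    apply Finset.sum_subset hY1
    intro l hl hlP
    rcases Finset.mem_union.1 (hY2 hl) with h | h
    · exact absurd h hlP
    · exact hdel l h s hs
  have h1 := alt_map (dlHom (chiC chi0 del X) s) U Q P
  simp only [dlHom_apply] at h1
  rw [← h1]
  apply alt_congr
  intro T hT
  rw [hQ T hT s hs]
  apply dl_congr
  rw [h0 (P ∪ T) Finset.subset_union_left (Finset.union_subset_union_right hT), h0 X hX1 hX2]

omit [Fintype I] in
/-- The pair of values of `Om` at such a place lies in the Kummer group. -/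
theorem om_mem (hS : S.Ok) {U P X : Finset I} {v : Pl} {Q : Finset I → V}
    (h2 : ∀ s, (2 : ℕ) • alt U (fun T => y T s) P = 0)
    (hQ : ∀ T, T ⊆ U → ∀ s ∈ S.D v, y (P ∪ T) s = dl (chiC chi0 del (P ∪ T)) (Q (P ∪ T)) s)
    (hdel : ∀ l ∈ U, ∀ s ∈ S.D v, del l s = 0) (hX1 : P ⊆ X) (hX2 : X ⊆ P ∪ U) :
    S.loc v (Om S y U P) ∈ S.Wl (chiC chi0 del X) v := by
  have hq : ∀ s ∈ S.D v, alt U (fun T => y T s) P = dl (chiC chi0 del X) (alt U Q P) s :=
    fun s hs => alt_dl_on hQ hdel hX1 hX2 hs
  refine ⟨alt U Q P, fun s hs => ?_, ?_, ?_⟩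
  · rw [← hq s hs]
    exact h2 s
  · rw [← hq _ (hS.sg_mem v)]
    exact (iota_om hS (h2 _)).symm
  · rw [← hq _ (hS.phi_mem v)]
    exact (iota_om hS (h2 _)).symm

/-- All the data and hypotheses of the local identity. -/
structure LocH (S : Sys G V V1 Pl) (chi0 : G → ZMod 2) (del : I → G → ZMod 2)
    (pl : I → Bool → Pl) (n : ℕ) (ia ib : I) (y : Finset I → G → V) (dg : Pl → ZMod 2)
    (z0 : G → V1) (a : V1) (w0 : G → V1) (b : V1) : Prop where
  ok : S.Ok
  cube : CubeOk S chi0 del pl
  ne : ia ≠ ib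
  fam : TopFam chi0 del n ia y
  loc : ∀ P v, S.Zv (chiC chi0 del P) v (y P)
  bad : ∀ v, v ∉ S.good → ∃ Q : Finset I → V, (∀ P, ∀ s ∈ S.D v,
    y P s = dl (chiC chi0 del P) (Q P) s) ∧ ∀ P, (2 : ℕ) • Q P = (2 : ℕ) • Q ∅
  z : TopZ S del n ia y z0 a
  w_hom : S.HomG w0
  w_loc : ∀ P, ∀ v ∈ S.good, S.loc v (fun s => w0 s + (if ib ∈ P then del ib s else 0) • b) -
    (0, dg v • (z0 (S.sg v) + (if ia ∈ P then del ia (S.sg v) else 0) • a)) ∈
    S.Wl (chiC chi0 del P) v

/-- The code `w` at the last vertex. -/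
def wu (del : I → G → ZMod 2) (ib : I) (w0 : G → V1) (b : V1) (s : G) : V1 :=
  w0 s + del ib s • b

variable {dg : Pl → ZMod 2} {z0 : G → V1} {a : V1} {w0 : G → V1} {b : V1}

namespace LocH

variable (h : LocH S chi0 del pl n ia ib y dg z0 a w0 b)

include h

theorem hchi (P : Finset I) : S.HomG (chiC chi0 del P) :=
  chiC_hom h.ok h.cube.chi0_hom h.cube.del_hom P

/-- A vertex which is unramified at the good place `v`. -/
theorem unr {v : Pl} (hv : v ∈ S.good) {P : Finset I} (h0 : chiC chi0 del P (S.sg v) = 0) :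
    y P (S.sg v) = 0 := by
  obtain ⟨Q, hQ⟩ := h.loc P v
  rw [hQ _ (h.ok.sg_mem v), Sys.dl_sg_zero h.ok hv h0]

theorem unr_pl {i : I} {e : Bool} {P : Finset I} (hP : (i ∈ P) ↔ e = false) :
    y P (S.sg (pl i e)) = 0 := by
  apply h.unr (h.cube.good i e)
  rw [chiC_pl h.cube P i e h.ok]
  cases e
  · rw [if_pos (hP.2 rfl)]; decide
  · rw [if_neg (fun hi => absurd (hP.1 hi) (by decide))]; decide

theorem two_ib (P : Finset I) (hP : P ⊆ {ib}) (s : G) :
    (2 : ℕ) • alt (univ.erase ib) (fun T => y T s) P = 0 := by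
  have hd : Disjoint (univ.erase ib) P := by
    rw [Finset.disjoint_left]
    intro x hx hxP
    exact (Finset.mem_erase.1 hx).1 (Finset.mem_singleton.1 (hP hxP))
  have := h.fam.x2 (U := univ.erase ib) hd (b := 1) le_rfl
    (by rw [Finset.card_erase_of_mem (Finset.mem_univ ib), Finset.card_univ, h.fam.card]; omega) s
  rwa [pow_one] at this

/-- `Om` splits in the direction `ib`. -/
theorem om_ib (s : G) : Om S y univ ∅ s =
    Om S y (univ.erase ib) ∅ s + Om S y (univ.erase ib) {ib} s := by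
  apply h.ok.iota_inj
  rw [map_add, iota_om h.ok (h.fam.two_top s), iota_om h.ok (h.two_ib ∅ (Finset.empty_subset _) s),
    iota_om h.ok (h.two_ib {ib} (Finset.Subset.refl _) s), alt_of_mem (Finset.mem_univ ib),
    sub_eq_add_neg, Sys.neg_of_two (h.two_ib (insert ib ∅) (by simp) s)]
  rfl

theorem del_ne {i l : I} (hl : l ≠ i) (e : Bool) : del l (S.sg (pl i e)) = 0 :=
  h.cube.del_D i e l hl _ (h.ok.sg_mem _)

theorem z0_pl_true (i : I) : z0 (S.sg (pl i true)) = 0 := by
  apply h.ok.iota_inj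
  have h1 := h.z ∅ (S.sg (pl i true))
  rw [if_neg (Finset.notMem_empty ia), zero_smul, add_zero] at h1
  rw [← h1, h.unr_pl (by simp), smul_zero, map_zero]

theorem z0_pl_false (i : I) : z0 (S.sg (pl i false)) = if i = ia then a else 0 := by
  have h1 := h.z {i} (S.sg (pl i false))
  rw [h.unr_pl (by simp), smul_zero] at h1
  have h2 := (Sys.iota_eq_zero h.ok).1 h1.symm
  by_cases hi : i = ia
  · subst hi
    rw [if_pos (Finset.mem_singleton_self i), h.cube.del_sg, one_smul] at h2
    rw [if_pos rfl]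
    exact (eq_neg_of_add_eq_zero_left h2).trans (V1_neg a)
  · rw [if_neg (fun hc => hi (Finset.mem_singleton.1 hc).symm), zero_smul, add_zero] at h2
    rw [if_neg hi, h2]

/-- The code at the last vertex satisfies the condition of the last vertex. -/
theorem w_univ {v : Pl} (hv : v ∈ S.good) : S.loc v (wu del ib w0 b) -
    (0, dg v • (z0 (S.sg v) + del ia (S.sg v) • a)) ∈ S.Wl (chiC chi0 del univ) v := by
  have h1 := h.w_loc univ v hv
  rw [if_pos (Finset.mem_univ ia)] at h1
  simp only [if_pos (Finset.mem_univ ib)] at h1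
  exact h1

/-- ... and of the vertex `univ.erase i`, `i ≠ ib`. -/
theorem w_erase {i : I} (hi : i ≠ ib) {v : Pl} (hv : v ∈ S.good) : S.loc v (wu del ib w0 b) -
    (0, dg v • (z0 (S.sg v) + (if ia ∈ univ.erase i then del ia (S.sg v) else 0) • a)) ∈
      S.Wl (chiC chi0 del (univ.erase i)) v := by
  have h1 := h.w_loc (univ.erase i) v hv
  simp only [if_pos (Finset.mem_erase.2 ⟨hi.symm, Finset.mem_univ ib⟩)] at h1
  exact h1

/-- The code `w0` satisfies the condition of the vertex `univ.erase ib`. -/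
theorem w_ib {v : Pl} (hv : v ∈ S.good) : S.loc v w0 -
    (0, dg v • (z0 (S.sg v) + del ia (S.sg v) • a)) ∈
      S.Wl (chiC chi0 del (univ.erase ib)) v := by
  have h1 := h.w_loc (univ.erase ib) v hv
  rw [if_pos (Finset.mem_erase.2 ⟨h.ne, Finset.mem_univ ia⟩)] at h1
  simp only [if_neg (Finset.notMem_erase ib univ), zero_smul, add_zero] at h1
  exact h1

theorem w_unr {v : Pl} (hv : v ∈ S.good) (h0 : chiC chi0 del univ (S.sg v) = 0) :
    wu del ib w0 b (S.sg v) = 0 := by
  have h1 := (Sys.mem_Wl_good h.ok (h.hchi univ) hv h0 _).1 (h.w_univ hv)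
  change wu del ib w0 b (S.sg v) - 0 = 0 at h1
  rwa [sub_zero] at h1

theorem w_pl_false (i : I) : wu del ib w0 b (S.sg (pl i false)) = 0 := by
  apply h.w_unr (h.cube.good i false)
  rw [chiC_pl h.cube univ i false h.ok, if_pos (Finset.mem_univ i)]
  decide

theorem w_pl_true {i : I} (hi : i ≠ ib) : wu del ib w0 b (S.sg (pl i true)) = 0 := by
  have h0 : chiC chi0 del (univ.erase i) (S.sg (pl i true)) = 0 := by
    rw [chiC_pl h.cube _ i true h.ok, if_neg (Finset.notMem_erase i _)]
    decide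
  have h1 := (Sys.mem_Wl_good h.ok (h.hchi _) (h.cube.good i true) h0 _).1
    (h.w_erase hi (h.cube.good i true))
  change wu del ib w0 b (S.sg (pl i true)) - 0 = 0 at h1
  rwa [sub_zero] at h1

theorem phi_aux {chi : G → ZMod 2} {v : Pl} (hv : v ∈ S.good) (h1 : chi (S.sg v) = 1)
    {c : G → V1} {x : V1} (hc : S.loc v c - (0, x) ∈ S.Wl chi v) (h0 : c (S.sg v) = 0) :
    c (S.phi v) = x := by
  obtain ⟨Q, _, h2, h3⟩ := hc
  have h4 : dl chi Q (S.sg v) = 0 := by
    rw [h2]
    change S.iota (c (S.sg v) - 0) = 0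
    rw [h0, sub_zero, map_zero]
  have h5 := Sys.fill_zero h.ok hv h1 h4 (S.phi v)
  rw [h3] at h5
  exact sub_eq_zero.1 ((Sys.iota_eq_zero h.ok).1 h5)

/-- The value of `w` at `phi`, `p_i^1`, `i ≠ ib`. -/
theorem w_phi_true {i : I} (hi : i ≠ ib) : wu del ib w0 b (S.phi (pl i true)) =
    dg (pl i true) • (if i = ia then a else 0) := by
  have h3 : chiC chi0 del univ (S.sg (pl i true)) = 1 := by
    rw [chiC_pl h.cube univ i true h.ok, if_pos (Finset.mem_univ i)]
    decide
  rw [h.phi_aux (h.cube.good i true) h3 (h.w_univ (h.cube.good i true)) (h.w_pl_true hi),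
    h.z0_pl_true, zero_add]
  by_cases hia : i = ia
  · subst hia
    rw [h.cube.del_sg, one_smul, if_pos rfl]
  · rw [h.del_ne (Ne.symm hia), zero_smul, if_neg hia]

/-- The value of `w` at `phi`, `p_i^0`, `i ≠ ib`. -/
theorem w_phi_false {i : I} (hi : i ≠ ib) : wu del ib w0 b (S.phi (pl i false)) =
    dg (pl i false) • (if i = ia then a else 0) := by
  have h3 : chiC chi0 del (univ.erase i) (S.sg (pl i false)) = 1 := by
    rw [chiC_pl h.cube _ i false h.ok, if_neg (Finset.notMem_erase i _)]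
    decide
  rw [h.phi_aux (h.cube.good i false) h3 (h.w_erase hi (h.cube.good i false)) (h.w_pl_false i),
    h.z0_pl_false]
  by_cases hia : i = ia
  · subst hia
    rw [if_pos rfl, if_neg (Finset.notMem_erase _ _), zero_smul, add_zero]
  · rw [if_neg hia, h.del_ne (Ne.symm hia), ite_self, zero_smul, add_zero]

theorem loc_del_zero {v : Pl} (hd : ∀ s ∈ S.D v, del ib s = 0) :
    S.loc v (fun s => del ib s • b) = 0 := by
  apply Prod.ext
  · change del ib (S.sg v) • b = 0
    rw [hd _ (h.ok.sg_mem v), zero_smul]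
  · change del ib (S.phi v) • b = 0
    rw [hd _ (h.ok.phi_mem v), zero_smul]

theorem pl_ne {i : I} (hi : i ≠ ib) (e e' : Bool) : pl i e ≠ pl ib e' := by
  intro hc
  have h1 := h.cube.del_sg ib e'
  rw [← hc, h.del_ne hi.symm e] at h1
  exact absurd h1 (by decide)

/-- The values `F (sg v)` at `p_i^0`. -/
theorem F_false (i : I) : FF S y del ia z0 a (S.sg (pl i false)) =
    if i = ia then S.e (Om S y univ ∅ (S.sg (pl i false))) a else 0 := by
  unfold FF
  rw [h.z0_pl_false]
  by_cases hi : i = ia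
  · subst hi
    rw [om_zero h.ok (U := univ.erase i) (P := {i}), map_zero, mul_zero, add_zero, if_pos rfl,
      if_pos rfl]
    intro T _
    apply h.unr_pl
    simp
  · rw [h.del_ne (Ne.symm hi) false, zero_mul, if_neg hi, if_neg hi, map_zero, add_zero]

/-- The values `F (sg v)` at `p_i^1`. -/
theorem F_true (i : I) : FF S y del ia z0 a (S.sg (pl i true)) =
    if i = ia then S.e (Om S y univ ∅ (S.sg (pl i true))) a else 0 := by
  unfold FF
  rw [h.z0_pl_true i, map_zero, zero_add]
  by_cases hi : i = ia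
  · subst hi
    rw [if_pos rfl, h.cube.del_sg, one_mul, om_split h.ok h.fam,
      om_zero h.ok (U := univ.erase i) (P := ∅), zero_add, e_symm h.ok]
    intro T hT
    apply h.unr_pl
    simp only [Finset.empty_union, Bool.true_eq_false, iff_false]
    exact fun hi => (Finset.mem_erase.1 (hT hi)).1 rfl
  · rw [if_neg hi, h.del_ne (Ne.symm hi) true, zero_mul]

theorem F_pl (i : I) (e : Bool) : FF S y del ia z0 a (S.sg (pl i e)) =
    if i = ia then S.e (Om S y univ ∅ (S.sg (pl i e))) a else 0 := by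
  cases e
  · exact h.F_false i
  · exact h.F_true i

/-- `<Om, w>` at `p_i^e`, `i ≠ ib`. -/
theorem sy_pl {i : I} (hi : i ≠ ib) (e : Bool) :
    S.sy (pl i e) (S.loc (pl i e) (Om S y univ ∅)) (S.loc (pl i e) (wu del ib w0 b)) =
      dg (pl i e) * (if i = ia then S.e (Om S y univ ∅ (S.sg (pl i e))) a else 0) := by
  have h0 : wu del ib w0 b (S.sg (pl i e)) = 0 := by
    cases e
    · exact h.w_pl_false i
    · exact h.w_pl_true hi
  have h1 : wu del ib w0 b (S.phi (pl i e)) = dg (pl i e) • (if i = ia then a else 0) := by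
    cases e
    · exact h.w_phi_false hi
    · exact h.w_phi_true hi
  change S.e (Om S y univ ∅ (S.sg (pl i e))) (wu del ib w0 b (S.phi (pl i e))) +
    S.e (Om S y univ ∅ (S.phi (pl i e))) (wu del ib w0 b (S.sg (pl i e))) +
    S.eps (pl i e) * S.e (Om S y univ ∅ (S.sg (pl i e))) (wu del ib w0 b (S.sg (pl i e))) = _
  rw [h0, h1]
  by_cases hia : i = ia
  · rw [if_pos hia, if_pos hia]
    simp only [map_zero, mul_zero, add_zero, map_smul, smul_eq_mul]
  · rw [if_neg hia, if_neg hia]
    simp only [map_zero, mul_zero, add_zero, smul_zero]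

/-- `<Om, w> = <Th0, del ib b>` at `p_ib^0`. -/
theorem sy_ib_false :
    S.sy (pl ib false) (S.loc (pl ib false) (Om S y univ ∅))
        (S.loc (pl ib false) (wu del ib w0 b)) =
      S.sy (pl ib false) (S.loc (pl ib false) (Om S y (univ.erase ib) ∅))
        (S.loc (pl ib false) (fun s => del ib s • b)) := by
  have hd : ∀ l ∈ univ.erase ib, ∀ s ∈ S.D (pl ib false), del l s = 0 := fun l hl s hs =>
    h.cube.del_D ib false l (Finset.mem_erase.1 hl).1 s hs
  choose Q hQ using fun P => h.loc P (pl ib false)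
  have hm : S.loc (pl ib false) (Om S y (univ.erase ib) ∅) ∈
      S.Wl (chiC chi0 del (univ.erase ib)) (pl ib false) :=
    om_mem h.ok (h.two_ib ∅ (Finset.empty_subset _)) (fun T _ => hQ _) hd
      (Finset.empty_subset _) (by rw [Finset.empty_union])
  have hw : S.loc (pl ib false) w0 ∈ S.Wl (chiC chi0 del (univ.erase ib)) (pl ib false) := by
    have h1 := h.w_ib (h.cube.good ib false)
    rw [h.z0_pl_false, if_neg h.ne.symm, h.del_ne h.ne, zero_smul, add_zero, smul_zero] at h1
    have h2 : ((0 : V1), (0 : V1)) = 0 := rfl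
    rwa [h2, sub_zero] at h1
  have e1 := h.ok.isot _ (h.hchi _) _ _ hm _ hw
  have e2 : S.sy (pl ib false) (S.loc (pl ib false) (Om S y (univ.erase ib) {ib}))
      (S.loc (pl ib false) (wu del ib w0 b)) = 0 := by
    apply sym_unr
    · apply om_zero h.ok
      intro T _
      apply h.unr_pl
      simp
    · exact h.w_pl_false ib
  have hOm : S.loc (pl ib false) (Om S y univ ∅) =
      S.loc (pl ib false) (Om S y (univ.erase ib) ∅) +
        S.loc (pl ib false) (Om S y (univ.erase ib) {ib}) := by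
    apply Prod.ext
    · exact h.om_ib _
    · exact h.om_ib _
  have hwu : S.loc (pl ib false) (wu del ib w0 b) =
      S.loc (pl ib false) w0 + S.loc (pl ib false) (fun s => del ib s • b) := rfl
  rw [hOm, Sys.sy_add_left, e2, add_zero, hwu, Sys.sy_add_right, e1, zero_add]

/-- `<Om, w> = <Th0, del ib b>` at `p_ib^1`. -/
theorem sy_ib_true :
    S.sy (pl ib true) (S.loc (pl ib true) (Om S y univ ∅))
        (S.loc (pl ib true) (wu del ib w0 b)) =
      S.sy (pl ib true) (S.loc (pl ib true) (Om S y (univ.erase ib) ∅))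
        (S.loc (pl ib true) (fun s => del ib s • b)) := by
  have hd : ∀ l ∈ univ.erase ib, ∀ s ∈ S.D (pl ib true), del l s = 0 := fun l hl s hs =>
    h.cube.del_D ib true l (Finset.mem_erase.1 hl).1 s hs
  choose Q hQ using fun P => h.loc P (pl ib true)
  have hm : S.loc (pl ib true) (Om S y (univ.erase ib) {ib}) ∈
      S.Wl (chiC chi0 del univ) (pl ib true) :=
    om_mem h.ok (h.two_ib {ib} (Finset.Subset.refl _)) (fun T _ => hQ _) hd
      (Finset.subset_univ _) (by
        intro x _
        rw [Finset.mem_union, Finset.mem_singleton, Finset.mem_erase]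
        by_cases hx : x = ib
        · exact Or.inl hx
        · exact Or.inr ⟨hx, Finset.mem_univ x⟩)
  have hw : S.loc (pl ib true) (wu del ib w0 b) ∈ S.Wl (chiC chi0 del univ) (pl ib true) := by
    have h1 := h.w_univ (h.cube.good ib true)
    rw [h.z0_pl_true, h.del_ne h.ne, zero_smul, add_zero, smul_zero] at h1
    have h2 : ((0 : V1), (0 : V1)) = 0 := rfl
    rwa [h2, sub_zero] at h1
  have e1 := h.ok.isot _ (h.hchi _) _ _ hm _ hw
  have e2 : S.sy (pl ib true) (S.loc (pl ib true) (Om S y (univ.erase ib) ∅))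
      (S.loc (pl ib true) w0) = 0 := by
    apply sym_unr
    · apply om_zero h.ok
      intro T hT
      apply h.unr_pl
      simp only [Finset.empty_union, Bool.true_eq_false, iff_false]
      exact fun hi => (Finset.mem_erase.1 (hT hi)).1 rfl
    · have h0 : chiC chi0 del (univ.erase ib) (S.sg (pl ib true)) = 0 := by
        rw [chiC_pl h.cube _ ib true h.ok, if_neg (Finset.notMem_erase ib _)]
        decide
      have h1 := (Sys.mem_Wl_good h.ok (h.hchi _) (h.cube.good ib true) h0 _).1
        (h.w_ib (h.cube.good ib true))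
      change w0 (S.sg (pl ib true)) - 0 = 0 at h1
      rwa [sub_zero] at h1
  have hOm : S.loc (pl ib true) (Om S y univ ∅) =
      S.loc (pl ib true) (Om S y (univ.erase ib) ∅) +
        S.loc (pl ib true) (Om S y (univ.erase ib) {ib}) := by
    apply Prod.ext
    · exact h.om_ib _
    · exact h.om_ib _
  have hwu : S.loc (pl ib true) (wu del ib w0 b) =
      S.loc (pl ib true) w0 + S.loc (pl ib true) (fun s => del ib s • b) := rfl
  rw [hOm, Sys.sy_add_left, e1, add_zero, hwu, Sys.sy_add_right, e2, zero_add]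

/-- The identity at `p_i^e`. -/
theorem id_pl {Th : G → V1} (hunr : ∀ v, v ≠ S.inf → Th (S.sg v) = 0) (i : I) (e : Bool) :
    dg (pl i e) * FF S y del ia z0 a (S.sg (pl i e)) +
      S.sy (pl i e) (S.loc (pl i e) (Om S y univ ∅)) (S.loc (pl i e) (wu del ib w0 b)) +
      S.sy (pl i e) (S.loc (pl i e) (fun s => Om S y (univ.erase ib) ∅ s - Th s))
        (S.loc (pl i e) (fun s => del ib s • b)) =
    if i = ib then S.e (Th (S.phi (pl i e))) b else 0 := by
  rw [h.F_pl]
  by_cases hi : i = ib
  · subst hi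
    have e0 : S.sy (pl i e) (S.loc (pl i e) (Om S y univ ∅))
        (S.loc (pl i e) (wu del i w0 b)) =
      S.sy (pl i e) (S.loc (pl i e) (Om S y (univ.erase i) ∅))
        (S.loc (pl i e) (fun s => del i s • b)) := by
      cases e
      · exact h.sy_ib_false
      · exact h.sy_ib_true
    have hT : Th (S.sg (pl i e)) = 0 :=
      hunr _ (fun hc => h.ok.inf_not_good (hc ▸ h.cube.good i e))
    have e1 : S.sy (pl i e) (S.loc (pl i e) Th) (S.loc (pl i e) (fun s => del i s • b)) =
        S.e (Th (S.phi (pl i e))) b := by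
      change S.e (Th (S.sg (pl i e))) (del i (S.phi (pl i e)) • b) +
        S.e (Th (S.phi (pl i e))) (del i (S.sg (pl i e)) • b) +
        S.eps (pl i e) * S.e (Th (S.sg (pl i e))) (del i (S.sg (pl i e)) • b) = _
      rw [hT, h.cube.del_sg, one_smul, map_zero, LinearMap.zero_apply, LinearMap.zero_apply,
        mul_zero, zero_add, add_zero]
    have e2 : S.loc (pl i e) (fun s => Om S y (univ.erase i) ∅ s - Th s) =
        S.loc (pl i e) (Om S y (univ.erase i) ∅) + S.loc (pl i e) Th := by
      apply Prod.ext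
      · exact (sub_eq_add_neg _ _).trans (by rw [V1_neg]; rfl)
      · exact (sub_eq_add_neg _ _).trans (by rw [V1_neg]; rfl)
    rw [if_neg h.ne.symm, if_pos rfl, mul_zero, zero_add, e0, e2, Sys.sy_add_left, e1, ← add_assoc,
      CharTwo.add_self_eq_zero, zero_add]
  · rw [h.loc_del_zero (fun s hs => h.cube.del_D i e ib (Ne.symm hi) s hs),
      Sys.sy_zero_right, add_zero, if_neg hi, h.sy_pl hi e, CharTwo.add_self_eq_zero]

/-- The identity at the other places. -/
theorem id_other {Th : G → V1} (hunr : ∀ v, v ≠ S.inf → Th (S.sg v) = 0) (v : Pl)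
    (hv : ∀ i e, v ≠ pl i e) :
    dg v * FF S y del ia z0 a (S.sg v) +
      S.sy v (S.loc v (Om S y univ ∅)) (S.loc v (wu del ib w0 b)) +
      S.sy v (S.loc v (fun s => Om S y (univ.erase ib) ∅ s - Th s))
        (S.loc v (fun s => del ib s • b)) = 0 := by
  rcases h.cube.other v hv with hd | ⟨hg, hc0, hd0⟩
  · rw [h.loc_del_zero (hd ib), Sys.sy_zero_right, add_zero]
    have hF : FF S y del ia z0 a (S.sg v) = S.e (Om S y univ ∅ (S.sg v)) (z0 (S.sg v)) := by
      unfold FF
      rw [hd ia _ (h.ok.sg_mem v), zero_mul, add_zero]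
    rw [hF]
    by_cases hg : v ∈ S.good
    · choose Q hQ using fun P => h.loc P v
      have hm : S.loc v (Om S y univ ∅) ∈ S.Wl (chiC chi0 del univ) v :=
        om_mem h.ok h.fam.two_top (fun T _ => hQ _) (fun l _ => hd l) (Finset.empty_subset _)
          (by rw [Finset.empty_union])
      have hw := h.w_univ hg
      have e1 := h.ok.isot _ (h.hchi univ) _ _ hm _ hw
      have e2 : S.loc v (wu del ib w0 b) = (S.loc v (wu del ib w0 b) - (0, dg v • (z0 (S.sg v) + del ia (S.sg v) • a))) +
          (0, dg v • (z0 (S.sg v) + del ia (S.sg v) • a)) := by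
        rw [sub_add_cancel]
      rw [e2, Sys.sy_add_right, e1, zero_add, hd ia _ (h.ok.sg_mem v), zero_smul, add_zero]
      have e3 : S.sy v (S.loc v (Om S y univ ∅)) (0, dg v • z0 (S.sg v)) =
          dg v * S.e (Om S y univ ∅ (S.sg v)) (z0 (S.sg v)) := by
        change S.e (Om S y univ ∅ (S.sg v)) (dg v • z0 (S.sg v)) +
          S.e (Om S y univ ∅ (S.phi v)) 0 +
          S.eps v * S.e (Om S y univ ∅ (S.sg v)) 0 = _
        simp only [map_zero, mul_zero, add_zero, map_smul, smul_eq_mul]
      rw [e3, CharTwo.add_self_eq_zero]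
    · obtain ⟨Q, hQ, hQ2⟩ := h.bad v hg
      have h0 : ∀ s ∈ S.D v, Om S y univ ∅ s = 0 := by
        intro s hs
        unfold Om
        have h1 : alt univ (fun T => y T s) ∅ = dl (chiC chi0 del ∅) (alt univ Q ∅) s :=
          alt_dl_on (S := S) (Q := Q) (fun T _ => hQ _) (fun l _ => hd l)
            (Finset.Subset.refl _) (Finset.empty_subset _) hs
        have h2 : (2 : ℕ) • alt univ Q ∅ = 0 := by
          rw [← alt_nsmul]
          have : alt univ (fun P => (2 : ℕ) • Q P) ∅ =
              alt (univ : Finset I) (fun _ => (2 : ℕ) • Q ∅) ∅ := by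
            apply alt_congr
            intro T _
            exact hQ2 _
          rw [this, alt_const (U := univ) ⟨ia, Finset.mem_univ ia⟩]
        rw [h1, Sys.dl_of_two h.ok _ _ h2, Sys.un_zero h.ok]
      have e1 : S.loc v (Om S y univ ∅) = 0 := by
        apply Prod.ext
        · exact h0 _ (h.ok.sg_mem v)
        · exact h0 _ (h.ok.phi_mem v)
      rw [e1, Sys.sy_zero_left, h0 _ (h.ok.sg_mem v), map_zero, LinearMap.zero_apply, mul_zero,
        add_zero]
  · have hchi : ∀ P, chiC chi0 del P (S.sg v) = 0 := by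
      intro P
      unfold chiC
      rw [hc0, zero_add]
      exact Finset.sum_eq_zero fun i _ => hd0 i
    have hy : ∀ P, y P (S.sg v) = 0 := fun P => h.unr hg (hchi P)
    have hO : ∀ U P, Om S y U P (S.sg v) = 0 := fun U P => om_zero h.ok fun T _ => hy _
    have hT : Th (S.sg v) = 0 := hunr _ (fun hc => h.ok.inf_not_good (hc ▸ hg))
    have hF : FF S y del ia z0 a (S.sg v) = 0 := by
      unfold FF
      rw [hO, map_zero, LinearMap.zero_apply, hd0 ia, zero_mul, add_zero]
    have h2 : S.sy v (S.loc v (Om S y univ ∅)) (S.loc v (wu del ib w0 b)) = 0 :=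
      sym_unr _ _ (hO _ _) (h.w_unr hg (hchi univ))
    have h3 : S.sy v (S.loc v (fun s => Om S y (univ.erase ib) ∅ s - Th s))
        (S.loc v (fun s => del ib s • b)) = 0 := by
      apply sym_unr
      · change Om S y (univ.erase ib) ∅ (S.sg v) - Th (S.sg v) = 0
        rw [hO, hT, sub_zero]
      · change del ib (S.sg v) • b = 0
        rw [hd0 ib, zero_smul]
    rw [hF, mul_zero, h2, h3, add_zero, add_zero]

/-- The local identity. -/
theorem loc_id {Th : G → V1} (hunr : ∀ v, v ≠ S.inf → Th (S.sg v) = 0) (v : Pl)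
    [Decidable (v = pl ib false ∨ v = pl ib true)] :
    dg v * FF S y del ia z0 a (S.sg v) +
      S.sy v (S.loc v (Om S y univ ∅)) (S.loc v (wu del ib w0 b)) +
      S.sy v (S.loc v (fun s => Om S y (univ.erase ib) ∅ s - Th s))
        (S.loc v (fun s => del ib s • b)) =
    if v = pl ib false ∨ v = pl ib true then S.e (Th (S.phi v)) b else 0 := by
  by_cases hv : ∃ i e, v = pl i e
  · obtain ⟨i, e, rfl⟩ := hv
    rw [h.id_pl hunr i e]
    by_cases hi : i = ib
    · subst hi
      rw [if_pos rfl, if_pos]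
      cases e
      · exact Or.inl rfl
      · exact Or.inr rfl
    · rw [if_neg hi, if_neg]
      exact fun hc => hc.elim (h.pl_ne hi e false) (h.pl_ne hi e true)
  · push Not at hv
    rw [h.id_other hunr v hv, if_neg]
    exact fun hc => hc.elim (hv ib false) (hv ib true)

end LocH

end TopFam

end

end Pool.Agent.SmH
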