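import Pool.Agent.Lib.SmH.C.TopRho
import Pool.Agent.Lib.SmH.Q.Main

/-!
Project HEIGHTS over `F_q(t)` (MP_48b749_nt), block C, module TopAux: alternating sums of the height
forms in terms of the global cochains `rho`: the local terms at the bad places.
-/

set_option autoImplicit false

open Finset

namespace Pool.Agent.SmH

open Pool.Agent.SmJ

section

variable {I M K : Type*} [DecidableEq I] [AddCommGroup M]

/-- Alternating sums of finsums. -/
theorem alt_finsum {U : Finset I} {f : Finset I → K → M}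
    (hf : ∀ P, (Function.support (f P)).Finite) (P : Finset I) :
    (alt U (fun Q => ∑ᶠ v, f Q v) P = ∑ᶠ v, alt U (fun Q => f Q v) P) ∧
      (Function.support fun v => alt U (fun Q => f Q v) P).Finite := by
  induction U using Finset.induction_on generalizing P with
  | empty =>
    simp only [alt_empty]
    exact ⟨trivial, hf P⟩
  | insert i U hi ih =>
    have h1 := ih P
    have h2 := ih (insert i P)
    simp only [alt_insert hi]
    refine ⟨by rw [h1.1, h2.1, finsum_sub_distrib h1.2 h2.2], ?_⟩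
    refine (h1.2.union h2.2).subset fun v hv => ?_
    by_contra hn
    rw [Set.mem_union, not_or] at hn
    apply hv
    have e1 : alt U (fun Q => f Q v) P = 0 := not_not.1 hn.1
    have e2 : alt U (fun Q => f Q v) (insert i P) = 0 := not_not.1 hn.2
    change alt U (fun Q => f Q v) P - alt U (fun Q => f Q v) (insert i P) = 0
    rw [e1, e2, sub_zero]

end

section

variable {G V V1 Pl M I : Type*} [Group G] [AddCommGroup V] [DistribMulAction G V]
  [AddCommGroup V1] [Module (ZMod 2) V1] [AddCommGroup M] [DistribMulAction G M]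
  {S : Sys G V V1 Pl} {H : HData V M Pl}

theorem rhoQ_zero (hS : S.Ok) (hH : HOk S H) (chi : G → ZMod 2) (i : ℕ) (v : Pl) :
    rhoQ H chi i 0 (S.sg v) = 0 := by
  rw [rhoQ_eq_bt]
  exact bt_zero_left hS hH.weil (hH.sgM v) (by rw [dl_zero, smul_zero])

/-- The local value depends only on `2 Q`. -/
theorem rhoQ_two (hS : S.Ok) (hH : HOk S H) {chi : G → ZMod 2} {i : ℕ} (hi : 1 ≤ i) {Q Q' : V}
    (v : Pl) (h2 : (2 : ℕ) • Q' = (2 : ℕ) • Q) (hQ : (2 : ℕ) ^ i • dl chi Q (S.sg v) = 0) :
    rhoQ H chi i Q' (S.sg v) = rhoQ H chi i Q (S.sg v) := by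
  have h3 : (2 : ℕ) • (Q' - Q) = 0 := by rw [smul_sub, h2, sub_self]
  have h4 : Q' = Q + (Q' - Q) := by abel
  rw [rhoQ_eq_bt, rhoQ_eq_bt, h4]
  exact bt_add_iota hS hH.weil (hH.sgM v) hi h3 hQ

variable {chi0 : G → ZMod 2} {del : I → G → ZMod 2} {pl : I → Bool → Pl}

/-- At a bad place the directions are trivial. -/
theorem bad_del (hC : CubeOk S chi0 del pl) {v : Pl} (hv : v ∉ S.good) :
    ∀ i, ∀ s ∈ S.D v, del i s = 0 := by
  rcases hC.other v (fun i e hc => hv (hc ▸ hC.good i e)) with h | h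
  · exact h
  · exact absurd h.1 hv

theorem bad_chi (hC : CubeOk S chi0 del pl) {v : Pl} (hv : v ∉ S.good) (P P' : Finset I) :
    ∀ s ∈ S.D v, chiC chi0 del P s = chiC chi0 del P' s := by
  intro s hs
  unfold chiC
  rw [Finset.sum_eq_zero fun i _ => bad_del hC hv i s hs,
    Finset.sum_eq_zero fun i _ => bad_del hC hv i s hs]

variable [DecidableEq I]

/-- The alternating sum of the height forms in terms of the cochains `rho`. -/
theorem alt_q (hS : S.Ok) (hH : HOk S H) (hC : CubeOk S chi0 del pl) {i : ℕ} (hi : 1 ≤ i)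
    {U : Finset I} (hU : U.Nonempty)
    {y : Finset I → (G → V) × (Pl → V)} (hy : ∀ P, IsPr S (chiC chi0 del P) i (y P))
    (hbad : ∀ v, v ∉ S.good → ∀ P, (2 : ℕ) • (y P).2 v = (2 : ℕ) • (y ∅).2 v)
    {rho : Finset I → G → M} (hrho : ∀ P, IsRho S H (chiC chi0 del P) i (y P).1 (rho P)) :
    alt U (fun P => q S H (chiC chi0 del P) i (y P)) ∅ =
      ∑ᶠ v, H.deg v • H.nm v (alt U (fun P => rho P (S.sg v)) ∅) := by
  have hq : ∀ P, q S H (chiC chi0 del P) i (y P) = ∑ᶠ v, H.deg v • H.nm v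
      (rho P (S.sg v) - rhoQ H (chiC chi0 del P) i ((y P).2 v) (S.sg v)) := fun P =>
    q_eq hS hH (chiC_hom hS hC.chi0_hom hC.del_hom P) (hy P) (hrho P)
  have h1 : ∀ P, rho P 1 = 0 := by
    intro P
    have e1 := (hrho P).2 1 1
    have e2 : (y P).1 1 = 0 := coc_one (chiC_hom hS hC.chi0_hom hC.del_hom P).2 (hy P).sel.coc
    rw [e2, tw_zero, hH.weil.zero_left (by rw [smul_zero]), one_smul, one_mul,
      add_sub_cancel_right] at e1
    exact e1.symm
  have hfin : ∀ P, (Function.support fun v => H.deg v • H.nm v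
      (rho P (S.sg v) - rhoQ H (chiC chi0 del P) i ((y P).2 v) (S.sg v))).Finite := by
    intro P
    refine ((tf_fin hS (hrho P).1 (h1 P)).union hS.good_fin).subset fun v hv => ?_
    by_contra hn
    rw [Set.mem_union, not_or] at hn
    apply hv
    change H.deg v • H.nm v (rho P (S.sg v) -
      rhoQ H (chiC chi0 del P) i ((y P).2 v) (S.sg v)) = 0
    rw [not_not.1 hn.1, (hy P).off v (not_not.1 hn.2), rhoQ_zero hS hH, sub_zero, map_zero,
      smul_zero]
  have e1 : alt U (fun P => q S H (chiC chi0 del P) i (y P)) ∅ =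
      alt U (fun P => ∑ᶠ v, H.deg v • H.nm v
        (rho P (S.sg v) - rhoQ H (chiC chi0 del P) i ((y P).2 v) (S.sg v))) ∅ :=
    alt_congr fun T _ => hq _
  rw [e1, (alt_finsum hfin ∅).1]
  apply finsum_congr
  intro v
  rw [alt_nsmul]
  congr 1
  have e2 := alt_map (H.nm v) U (fun P => rho P (S.sg v) -
    rhoQ H (chiC chi0 del P) i ((y P).2 v) (S.sg v)) ∅
  rw [e2]
  congr 1
  rw [alt_sub]
  have e3 : alt U (fun P => rhoQ H (chiC chi0 del P) i ((y P).2 v) (S.sg v)) ∅ =
      alt U (fun _ => rhoQ H (chiC chi0 del ∅) i ((y ∅).2 v) (S.sg v)) ∅ := by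
    apply alt_congr
    intro T _
    by_cases hv : v ∈ S.good
    · rw [(hy _).off v hv, (hy _).off v hv, rhoQ_zero hS hH, rhoQ_zero hS hH]
    · rw [rhoQ_congr_chi H (bad_chi hC hv _ ∅ _ (hS.sg_mem v))]
      apply rhoQ_two hS hH hi v (hbad v hv _)
      rw [← (hy ∅).loc v hv _ (hS.sg_mem v)]
      exact (hy ∅).sel.lev _
  rw [e3, alt_const hU, sub_zero]

end

end Pool.Agent.SmH
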