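import Pool.Agent.Lib.SmH.C.LocT
import Pool.Agent.Lib.SmH.Defs

/-!
Project HEIGHTS over `F_q(t)` (MP_48b749_nt), block C, module TopRho: 4.1 (the top sum) in terms of global
cochains `rho P` which split the cup squares.
-/

set_option autoImplicit false

open Finset

namespace Pool.Agent.SmH

open Pool.Agent.SmJ

section

variable {G V V1 Pl M I : Type*} [Group G] [AddCommGroup V] [DistribMulAction G V]
  [AddCommGroup V1] [Module (ZMod 2) V1] [AddCommGroup M] [DistribMulAction G M]
  {S : Sys G V V1 Pl} {H : HData V M Pl} [DecidableEq I] [Fintype I]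
  {chi0 : G → ZMod 2} {del : I → G → ZMod 2} {n : ℕ} {ia ib : I} {y : Finset I → G → V}
  {pl : I → Bool → Pl}

omit [DistribMulAction G M] in
/-- A 2-finite function which vanishes at `1` vanishes at almost all tame generators. -/
theorem tf_fin (hS : S.Ok) {f : G → M} (hf : S.TF f) (h1 : f 1 = 0) :
    {v | f (S.sg v) ≠ 0}.Finite := by
  obtain ⟨N, hN, h⟩ := hf
  refine (hS.unr N hN).subset fun v hv hm => hv ?_
  have := h 1 _ hm
  rwa [one_mul, h1] at this

namespace TopFam

omit [Fintype I] in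
theorem om_tf (hS : S.Ok) (htf : ∀ P, S.TF (y P)) (U P : Finset I) : S.TF (Om S y U P) := by
  unfold Om
  apply Sys.TF.comp (f := fun s => alt U (fun T => y T s) P) ?_ S.un
  apply tf_alt hS U P y
  intro T _
  exact htf _

namespace LocH

variable {z0 : G → V1} {a : V1} {w0 : G → V1} {b : V1} {dg : Pl → ZMod 2}

theorem om_hom (h : LocH S chi0 del pl n ia ib y dg z0 a w0 b) (htf : ∀ P, S.TF (y P)) :
    S.HomG (Om S y univ ∅) :=
  ⟨om_tf h.ok htf _ _, fun s t => h.fam.om_top_mul h.ok s t⟩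

theorem z0_tf (h : LocH S chi0 del pl n ia ib y dg z0 a w0 b) (htf : ∀ P, S.TF (y P)) :
    S.TF z0 := by
  have h0 : ∀ s, z0 s = S.un ((2 : ℕ) ^ n • y ∅ s) := fun s => by
    rw [h.z ∅ s, if_neg (Finset.notMem_empty ia), zero_smul, add_zero, Sys.un_iota h.ok]
  have h1 : z0 = fun s => S.un ((2 : ℕ) ^ n • y ∅ s) := funext h0
  rw [h1]
  exact (htf ∅).comp (fun x => S.un ((2 : ℕ) ^ n • x))

theorem FF_tf (h : LocH S chi0 del pl n ia ib y dg z0 a w0 b) (htf : ∀ P, S.TF (y P)) :
    S.TF (FF S y del ia z0 a) := by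
  have h1 := Sys.TF.comp₂ h.ok (om_tf h.ok htf univ ∅) (h.z0_tf htf) (fun x y => S.e x y)
  have h2 := Sys.TF.comp₂ h.ok (h.cube.del_hom ia).1 (om_tf h.ok htf (univ.erase ia) {ia})
    (fun c x => c * S.e a x)
  exact Sys.TF.comp₂ h.ok h1 h2 (fun p q => p + q)

theorem FF_one (h : LocH S chi0 del pl n ia ib y dg z0 a w0 b) (htf : ∀ P, S.TF (y P)) :
    FF S y del ia z0 a 1 = 0 := by
  have h1 : ∀ {f : G → V1}, (∀ s t, f (s * t) = f s + f t) → f 1 = 0 := fun {f} hf => by
    have := hf 1 1
    rw [one_mul] at this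
    exact left_eq_add.mp this
  unfold FF
  rw [h1 (h.om_hom htf).2, h1 (h.fam.om_side_mul h.ok (P := {ia}) (Finset.Subset.refl _)),
    map_zero, map_zero, LinearMap.zero_apply, mul_zero, add_zero]

/-- The sum of the local terms. -/
theorem sum_F (h : LocH S chi0 del pl n ia ib y dg z0 a w0 b) (htf : ∀ P, S.TF (y P))
    {Th : G → V1} (hTtf : S.TF Th)
    (hrel : ThRel S n del (fun P s => (2 : ℕ) • y P s) (univ.erase ib) Th)
    (hunr : ∀ v, v ≠ S.inf → Th (S.sg v) = 0) :
    ∑ᶠ v, dg v * FF S y del ia z0 a (S.sg v) =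
      S.e (Th (S.phi (pl ib false)) + Th (S.phi (pl ib true))) b := by
  classical
  have hS := h.ok
  have hwu : S.HomG (wu del ib w0 b) :=
    ⟨Sys.TF.comp₂ hS h.w_hom.1 (h.cube.del_hom ib).1 (fun x c => x + c • b), fun s t => by
      simp only [wu, h.w_hom.2 s t, (h.cube.del_hom ib).2 s t, add_smul]
      abel⟩
  have hwi : S.HomG (fun s => del ib s • b) := hom_smul (h.cube.del_hom ib) b
  -- the star property of the family `2 y`
  have hst : Star univ n (fun P s => (2 : ℕ) • y P s) :=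
    star_of_min (W := univ) (σ := {ia}) (j := n) (Psi := fun P s => (2 : ℕ) • y P s)
      (by simp) (fun P _ s => h.fam.lev2 P s)
      (fun U P _ _ h1 h2 h3 h4 => h.fam.mn U P h1 h2 h3 h4)
  have hWc : (univ.erase ib : Finset I).card = n + 1 := by
    rw [Finset.card_erase_of_mem (Finset.mem_univ ib), Finset.card_univ, h.fam.card]; omega
  have hrel' : ThRel S n del (fun P s => (2 : ℕ) • y P s) (univ.erase ib)
      (Om S y (univ.erase ib) ∅) :=
    om_rel (chi0 := chi0) hS hWc (hst.mono (Finset.erase_subset _ _))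
      (fun T _ => h.fam.coc T) (fun T _ s => rfl)
  have hom : S.HomG (fun s => Om S y (univ.erase ib) ∅ s - Th s) :=
    ⟨(om_tf hS htf _ _).comp₂ hS hTtf (fun a b => a - b), fun s t => hrel'.sub_hom hrel s t⟩
  have hf1 := Sys.sy_supp hS (h.om_hom htf) hwu
  have hf2 := Sys.sy_supp hS hom hwi
  have hf0 : {v | dg v * FF S y del ia z0 a (S.sg v) ≠ 0}.Finite := by
    refine (tf_fin hS (h.FF_tf htf) (h.FF_one htf)).subset fun v hv hc => hv ?_
    change FF S y del ia z0 a (S.sg v) = 0 at hc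
    rw [hc, mul_zero]
  have r1 := hS.recip _ _ (h.om_hom htf) hwu
  have r2 := hS.recip _ _ hom hwi
  have hf01 : {v | dg v * FF S y del ia z0 a (S.sg v) +
      S.sy v (S.loc v (Om S y univ ∅)) (S.loc v (wu del ib w0 b)) ≠ 0}.Finite := by
    refine (hf0.union hf1).subset ?_
    intro v hv
    by_contra hn
    rw [Set.mem_union, not_or] at hn
    apply hv
    rw [not_not.1 hn.1, not_not.1 hn.2, add_zero]
  have e1 : ∑ᶠ v, dg v * FF S y del ia z0 a (S.sg v) =
      ∑ᶠ v, (dg v * FF S y del ia z0 a (S.sg v) +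
      S.sy v (S.loc v (Om S y univ ∅)) (S.loc v (wu del ib w0 b)) +
      S.sy v (S.loc v (fun s => Om S y (univ.erase ib) ∅ s - Th s))
        (S.loc v (fun s => del ib s • b))) := by
    rw [finsum_add_distrib hf01 hf2, finsum_add_distrib hf0 hf1, r1, r2, add_zero, add_zero]
  rw [e1, finsum_congr (fun v => h.loc_id hunr v)]
  have hne : pl ib false ≠ pl ib true := by
    intro hc
    have h1 := h.cube.chi0_sg ib false
    have h2 := h.cube.chi0_sg ib true
    rw [hc] at h1
    rw [h1] at h2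
    exact absurd h2 (by decide)
  have hsupp : {v | (if v = pl ib false ∨ v = pl ib true then S.e (Th (S.phi v)) b else 0) ≠ 0} ⊆
      (({pl ib false, pl ib true} : Finset Pl) : Set Pl) := by
    intro v hv
    by_contra hn
    apply hv
    rw [if_neg]
    intro hc
    apply hn
    simpa using hc
  rw [finsum_eq_sum_of_support_subset _ hsupp, Finset.sum_pair hne, if_pos (Or.inl rfl),
    if_pos (Or.inr rfl), map_add, LinearMap.add_apply]

/-- The top sum in terms of `rho`. -/
theorem top_rho (hH : HOk S H)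
    (h : LocH S chi0 del pl n ia ib y (fun v => (H.deg v : ZMod 2)) z0 a w0 b)
    (htf : ∀ P, S.TF (y P)) {rho : Finset I → G → M}
    (hrho : ∀ P, IsRho S H (chiC chi0 del P) (n + 1) (y P) (rho P))
    {Th : G → V1} (hTtf : S.TF Th)
    (hrel : ThRel S n del (fun P s => (2 : ℕ) • y P s) (univ.erase ib) Th)
    (hunr : ∀ v, v ≠ S.inf → Th (S.sg v) = 0) :
    ∑ᶠ v, H.deg v • H.nm v (alt univ (fun P => rho P (S.sg v)) ∅) =
      H.j (S.e (Th (S.phi (pl ib false)) + Th (S.phi (pl ib true))) b) := by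
  have hS := h.ok
  set A : G → M := fun s => alt univ (fun P => rho P s) ∅ with hA
  set F : G → ZMod 2 := FF S y del ia z0 a with hF
  have hAtf : S.TF A := tf_alt hS univ ∅ rho (fun T _ => (hrho _).1)
  have hFtf : S.TF F := h.FF_tf htf
  -- the cocycle
  have hcoc : ∀ s t, (A (s * t) - H.j (F (s * t))) =
      (A s - H.j (F s)) + s • (A t - H.j (F t)) := by
    intro s t
    have h1 : A s + s • A t - A (s * t) = H.j (F s) + H.j (F t) - H.j (F (s * t)) := by
      rw [← h.fam.exact hS hH.weil (h.cube.del_hom ia).2 h.z s t]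
      have e1 : s • A t = alt univ (fun P => s • rho P t) ∅ :=
        (alt_map (DistribSMul.toAddMonoidHom M s) univ (fun P => rho P t) ∅).symm
      rw [e1, hA, ← alt_add, ← alt_sub]
      apply alt_congr
      intro T _
      exact ((hrho _).2 s t).symm
    rw [smul_sub, hH.weil.fix]
    have h2 : A (s * t) = A s + s • A t - (H.j (F s) + H.j (F t) - H.j (F (s * t))) := by
      rw [← h1]; abel
    rw [h2]
    abel
  have hctf : S.TF (fun s => A s - H.j (F s)) :=
    Sys.TF.comp₂ hS hAtf hFtf (fun x c => x - H.j c)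
  have hprod := hH.prod _ hctf hcoc
  have h1 : A 1 - H.j (F 1) = 0 := by
    have := hcoc 1 1
    rw [one_mul, one_smul] at this
    exact left_eq_add.mp this
  have hfin1 := tf_fin (M := M) hS hctf h1
  have hF1 : F 1 = 0 := h.FF_one htf
  have hfin2 : {v | F (S.sg v) ≠ 0}.Finite := tf_fin hS hFtf hF1
  have hs1 : (Function.support fun v => H.deg v • H.nm v (A (S.sg v) - H.j (F (S.sg v)))).Finite :=
    hfin1.subset fun v hv hc => hv (by
      change A (S.sg v) - H.j (F (S.sg v)) = 0 at hc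
      change H.deg v • H.nm v (A (S.sg v) - H.j (F (S.sg v))) = 0
      rw [hc, map_zero, smul_zero])
  have hs2 : (Function.support fun v => H.j ((H.deg v : ZMod 2) * F (S.sg v))).Finite :=
    hfin2.subset fun v hv hc => hv (by
      change F (S.sg v) = 0 at hc
      change H.j ((H.deg v : ZMod 2) * F (S.sg v)) = 0
      rw [hc, mul_zero, map_zero])
  have hs3 : (Function.support fun v => (H.deg v : ZMod 2) * F (S.sg v)).Finite :=
    hfin2.subset fun v hv hc => hv (by
      change F (S.sg v) = 0 at hc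
      change (H.deg v : ZMod 2) * F (S.sg v) = 0
      rw [hc, mul_zero])
  have e1 : ∀ v, H.deg v • H.nm v (A (S.sg v)) =
      H.deg v • H.nm v (A (S.sg v) - H.j (F (S.sg v))) +
        H.j ((H.deg v : ZMod 2) * F (S.sg v)) := by
    intro v
    rw [map_sub, hH.nm_j, smul_sub]
    have : H.j ((H.deg v : ZMod 2) * F (S.sg v)) = H.deg v • H.j (F (S.sg v)) := by
      rw [← map_nsmul, nsmul_eq_mul]
    rw [this]
    abel
  rw [finsum_congr e1, finsum_add_distrib hs1 hs2, hprod, zero_add]
  have e2 : ∑ᶠ v, H.j ((H.deg v : ZMod 2) * F (S.sg v)) =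
      H.j (∑ᶠ v, (H.deg v : ZMod 2) * F (S.sg v)) := (H.j.map_finsum hs3).symm
  rw [e2, h.sum_F htf hTtf hrel hunr]

end LocH

end TopFam

end

end Pool.Agent.SmH
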